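import Mathlib
import Pool.Agent.helper2.Tow.Euler
import Pool.Agent.helper2.Tow.ZSum

set_option autoImplicit false

/-!
# Sums over primes and the pole of the Dedekind zeta function
-/

namespace Pool.Agent.helper45.T3

open NumberField Filter Topology IsDedekindDomain Pool.Agent.helper2.Tow

variable (K : Type*) [Field K] [NumberField K]

/-- the zeta function as a real sum over ideals -/
noncomputable def ZI (s : ℝ) : ℝ := ∑' I : Ideal (𝓞 K), (Ideal.absNorm I : ℝ) ^ (-s)

/-- the term of a prime -/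
noncomputable def xv {K : Type*} [Field K] [NumberField K] (s : ℝ)
    (v : HeightOneSpectrum (𝓞 K)) : ℝ := (Ideal.absNorm v.asIdeal : ℝ) ^ (-s)

lemma dedekindZeta_eq {s : ℝ} (hs : 1 < s) : dedekindZeta K s = (ZI K s : ℂ) := by
  have hsum := summable_absNorm K hs
  have hfin : ∀ m : ℕ, Finite {I : Ideal (𝓞 K) // Ideal.absNorm I = m} := fun m =>
    Set.Finite.to_subtype (Ideal.finite_setOfPred_absNorm_eq m)
  have e : ZI K s = ∑' n : ℕ, (Nat.card {I : Ideal (𝓞 K) // Ideal.absNorm I = n} : ℝ) *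
      (n : ℝ) ^ (-s) := by
    rw [ZI, ← (Equiv.sigmaFiberEquiv (fun I : Ideal (𝓞 K) => Ideal.absNorm I)).tsum_eq]
    have hs2 := (Equiv.sigmaFiberEquiv
      (fun I : Ideal (𝓞 K) => Ideal.absNorm I)).summable_iff.2 hsum
    refine (Summable.tsum_sigma hs2).trans ?_
    refine tsum_congr fun n => ?_
    have : ∀ I : {I : Ideal (𝓞 K) // Ideal.absNorm I = n},
        ((fun I : Ideal (𝓞 K) => (Ideal.absNorm I : ℝ) ^ (-s)) ((Equiv.sigmaFiberEquiv
          (fun I : Ideal (𝓞 K) => Ideal.absNorm I)) ⟨n, I⟩)) = (n : ℝ) ^ (-s) := by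
      intro I
      simp only [Equiv.sigmaFiberEquiv_apply]
      rw [I.2]
    refine (tsum_congr this).trans ?_
    rw [tsum_const, nsmul_eq_mul]
  rw [e, dedekindZeta, LSeries, Complex.ofReal_tsum]
  refine tsum_congr fun n => ?_
  rcases eq_or_ne n 0 with rfl | hn
  · rw [LSeries.term_zero, Nat.cast_zero, Real.zero_rpow (by linarith), mul_zero,
      Complex.ofReal_zero]
  · rw [LSeries.term_of_ne_zero hn, Complex.ofReal_mul, Complex.ofReal_cpow (Nat.cast_nonneg _),
      Complex.ofReal_neg, Complex.ofReal_natCast, Complex.ofReal_natCast, Complex.cpow_neg,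
      div_eq_mul_inv]

/-- the class number formula for `ZI` -/
theorem tendsto_ZI : Tendsto (fun s : ℝ => (s - 1) * ZI K s) (𝓝[>] 1)
    (𝓝 (dedekindZeta_residue K)) := by
  have h := tendsto_sub_one_mul_dedekindZeta_nhdsGT K
  have h2 : Tendsto (fun s : ℝ => (((s - 1) * ZI K s : ℝ) : ℂ)) (𝓝[>] 1)
      (𝓝 ((dedekindZeta_residue K : ℝ) : ℂ)) := by
    refine h.congr' ?_
    filter_upwards [self_mem_nhdsWithin] with s hs
    rw [dedekindZeta_eq K hs]
    push_cast
    ring
  have h3 := (Complex.continuous_re.tendsto _).comp h2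
  simpa [Function.comp_def] using h3

variable {K}

lemma two_le_absNorm (v : HeightOneSpectrum (𝓞 K)) : 2 ≤ Ideal.absNorm v.asIdeal := by
  have h0 : Ideal.absNorm v.asIdeal ≠ 0 := fun h => v.ne_bot (Ideal.absNorm_eq_zero_iff.1 h)
  have h1 : Ideal.absNorm v.asIdeal ≠ 1 := fun h =>
    v.isPrime.ne_top (Ideal.absNorm_eq_one_iff.1 h)
  omega

lemma xv_pos (s : ℝ) (v : HeightOneSpectrum (𝓞 K)) : 0 < xv s v := by
  have := two_le_absNorm v
  exact Real.rpow_pos_of_pos (by positivity) _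

lemma xv_le {s : ℝ} (hs : 1 < s) (v : HeightOneSpectrum (𝓞 K)) :
    xv s v ≤ (Ideal.absNorm v.asIdeal : ℝ)⁻¹ := by
  have h2 := two_le_absNorm v
  rw [xv, ← Real.rpow_neg_one]
  exact Real.rpow_le_rpow_of_exponent_le (by exact_mod_cast (by omega : 1 ≤ _)) (by linarith)

lemma xv_le_half {s : ℝ} (hs : 1 < s) (v : HeightOneSpectrum (𝓞 K)) : xv s v ≤ 1 / 2 := by
  refine (xv_le hs v).trans ?_
  rw [one_div]
  exact inv_anti₀ (by norm_num) (by exact_mod_cast two_le_absNorm v)

omit [NumberField K] in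
lemma asIdeal_injective : Function.Injective
    (fun v : HeightOneSpectrum (𝓞 K) => v.asIdeal) := fun _ _ h => HeightOneSpectrum.ext h

lemma summable_xv {s : ℝ} (hs : 1 < s) : Summable fun v : HeightOneSpectrum (𝓞 K) => xv s v :=
  (summable_absNorm K hs).comp_injective asIdeal_injective

lemma xv_sq_le {s : ℝ} (hs : 1 < s) (v : HeightOneSpectrum (𝓞 K)) : xv s v ^ 2 ≤ xv 2 v := by
  have h2 := two_le_absNorm v
  have h := xv_le hs v
  have e : xv 2 v = ((Ideal.absNorm v.asIdeal : ℝ)⁻¹) ^ 2 := by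
    rw [xv, Real.rpow_neg (by positivity), inv_pow]
    norm_cast
  rw [e]
  exact pow_le_pow_left₀ (xv_pos s v).le h 2

/-- the Euler product -/
lemma hasProd_ZI {s : ℝ} (hs : 1 < s) :
    HasProd (fun v : HeightOneSpectrum (𝓞 K) => (1 - xv s v)⁻¹) (ZI K s) := by
  set f : Ideal (𝓞 K) → ℂ := fun I => (((Ideal.absNorm I : ℝ) ^ (-s) : ℝ) : ℂ) with hf
  have h0 : f ⊥ = 0 := by
    rw [hf]
    simp only [Ideal.absNorm_bot, Nat.cast_zero]
    rw [Real.zero_rpow (by linarith), Complex.ofReal_zero]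
  have h1 : f 1 = 1 := by
    rw [hf]
    simp only [Ideal.one_eq_top, Ideal.absNorm_top, Nat.cast_one, Real.one_rpow,
      Complex.ofReal_one]
  have hm : ∀ I J, f (I * J) = f I * f J := by
    intro I J
    rw [hf]
    simp only
    rw [map_mul, Nat.cast_mul, Real.mul_rpow (Nat.cast_nonneg _) (Nat.cast_nonneg _),
      Complex.ofReal_mul]
  have hsum : Summable fun I => ‖f I‖ := by
    refine (summable_absNorm K hs).congr fun I => ?_
    rw [hf]
    simp only
    rw [Complex.norm_real, Real.norm_of_nonneg (Real.rpow_nonneg (Nat.cast_nonneg _) _)]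
  have h := hasProd_euler f h0 h1 hm hsum
  have e : ∑' I, f I = ((ZI K s : ℝ) : ℂ) := by
    rw [ZI, Complex.ofReal_tsum]
  rw [e] at h
  rw [HasProd] at h ⊢
  have h3 := (Complex.continuous_re.tendsto _).comp h
  rw [Complex.ofReal_re] at h3
  refine h3.congr fun S => ?_
  have h4 : ∏ v ∈ S, (1 - f v.asIdeal)⁻¹ = ((∏ v ∈ S, (1 - xv s v)⁻¹ : ℝ) : ℂ) := by
    push_cast
    rfl
  rw [Function.comp_apply, h4, Complex.ofReal_re]

/-- `exp P ≤ Z` -/
lemma exp_le_ZI {s : ℝ} (hs : 1 < s) :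
    Real.exp (∑' v : HeightOneSpectrum (𝓞 K), xv s v) ≤ ZI K s := by
  have h1 := (Real.continuous_exp.tendsto _).comp (summable_xv (K := K) hs).hasSum
  refine le_of_tendsto_of_tendsto' h1 (hasProd_ZI hs) fun S => ?_
  rw [Function.comp_apply, Real.exp_sum]
  refine Finset.prod_le_prod (fun v _ => (Real.exp_pos _).le) fun v _ => ?_
  have hx := xv_le_half hs v
  have h2 := Real.one_sub_le_exp_neg (xv s v)
  rw [Real.exp_neg] at h2
  rw [le_inv_comm₀ (Real.exp_pos _) (by linarith)]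
  exact h2

/-- `Z ≤ exp (P + C)` -/
lemma ZI_le_exp {s : ℝ} (hs : 1 < s) : ZI K s ≤
    Real.exp ((∑' v : HeightOneSpectrum (𝓞 K), xv s v) +
      2 * ∑' v : HeightOneSpectrum (𝓞 K), xv 2 v) := by
  have hs2 : Summable fun v : HeightOneSpectrum (𝓞 K) => xv 2 v :=
    summable_xv (by norm_num)
  have h0 : HasSum (fun v : HeightOneSpectrum (𝓞 K) => xv s v + 2 * xv 2 v)
      ((∑' v : HeightOneSpectrum (𝓞 K), xv s v) +
      2 * ∑' v : HeightOneSpectrum (𝓞 K), xv 2 v) :=
    (summable_xv (K := K) hs).hasSum.add (hs2.hasSum.mul_left 2)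
  have h1 := (Real.continuous_exp.tendsto _).comp h0
  refine le_of_tendsto_of_tendsto' (hasProd_ZI hs) h1 fun S => ?_
  rw [Function.comp_apply, Real.exp_sum]
  refine Finset.prod_le_prod (fun v _ => ?_) fun v _ => ?_
  · have hx := xv_le_half hs v
    exact inv_nonneg.2 (by linarith)
  · have hx := xv_le_half hs v
    have hp := xv_pos s v
    have hsq := xv_sq_le hs v
    set x := xv s v
    have h2 : (1 - x)⁻¹ ≤ 1 + (x + 2 * x ^ 2) := by
      rw [inv_le_iff_one_le_mul₀ (by linarith)]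
      nlinarith [mul_nonneg (sq_nonneg x) (by linarith : 0 ≤ 1 - 2 * x)]
    calc (1 - x)⁻¹ ≤ 1 + (x + 2 * x ^ 2) := h2
      _ ≤ Real.exp (x + 2 * x ^ 2) := by
          have := Real.add_one_le_exp (x + 2 * x ^ 2)
          linarith
      _ ≤ Real.exp (x + 2 * xv 2 v) := Real.exp_le_exp.2 (by linarith)

/-- the residue characteristic -/
noncomputable def rc (v : HeightOneSpectrum (𝓞 K)) : ℕ := Ideal.absNorm (v.asIdeal.under ℤ)

omit [NumberField K] in
lemma rc_prime (v : HeightOneSpectrum (𝓞 K)) : (rc v).Prime := by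
  have := v.isPrime
  have : NeZero v.asIdeal := ⟨v.ne_bot⟩
  exact Nat.absNorm_under_prime v.asIdeal

omit [NumberField K] in
lemma mem_primesOver_rc (v : HeightOneSpectrum (𝓞 K)) :
    v.asIdeal ∈ (Ideal.span {(rc v : ℤ)}).primesOver (𝓞 K) :=
  ⟨v.isPrime, Int.liesOver_span_absNorm v.asIdeal⟩

lemma sq_rc_le (v : HeightOneSpectrum (𝓞 K)) (h : ¬ (Ideal.absNorm v.asIdeal).Prime) :
    rc v ^ 2 ≤ Ideal.absNorm v.asIdeal := by
  have hp := rc_prime v
  have hl : v.asIdeal.LiesOver (Ideal.span {(rc v : ℤ)}) := Int.liesOver_span_absNorm v.asIdeal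
  have e := Ideal.absNorm_eq_pow_inertiaDeg' v.asIdeal hp
  set f := (Ideal.span {(rc v : ℤ)}).inertiaDeg' v.asIdeal
  rw [e] at h ⊢
  have h2 : 2 ≤ rc v ^ f := e ▸ two_le_absNorm v
  refine Nat.pow_le_pow_right hp.pos ?_
  by_contra hf
  push Not at hf
  interval_cases f
  · rw [pow_zero] at h2
    omega
  · rw [pow_one] at h
    exact h hp

lemma ncard_primesOver_le {p : ℕ} (hp : p.Prime) :
    ((Ideal.span {(p : ℤ)}).primesOver (𝓞 K)).Finite ∧
      ((Ideal.span {(p : ℤ)}).primesOver (𝓞 K)).ncard ≤ Module.finrank ℤ (𝓞 K) := by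
  have hpz : Prime (p : ℤ) := Nat.prime_iff_prime_int.1 hp
  have hpp : (Ideal.span {(p : ℤ)}).IsPrime := (Ideal.span_singleton_prime hpz.ne_zero).2 hpz
  have hfin : ((Ideal.span {(p : ℤ)}).primesOver (𝓞 K)).Finite :=
    Algebra.QuasiFinite.finite_primesOver _
  refine ⟨hfin, ?_⟩
  let _ : Fintype ((Ideal.span {(p : ℤ)}).primesOver (𝓞 K)) := hfin.fintype
  rw [← Ideal.sum_ramification_inertia_eq_finrank (Ideal.span {(p : ℤ)}) (𝓞 K),
    Set.ncard_eq_toFinset_card', Set.toFinset_card, ← Finset.card_univ, Finset.card_eq_sum_ones]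
  refine Finset.sum_le_sum fun q _ => ?_
  have h1 : q.1.IsPrime := q.2.1
  have h2 : q.1.LiesOver (Ideal.span {(p : ℤ)}) := q.2.2
  have h3 : q.1 ≠ ⊥ := by
    refine Ideal.ne_bot_of_mem_primesOver (p := Ideal.span {(p : ℤ)}) ?_ q.2
    rw [Ne, Ideal.span_singleton_eq_bot]
    exact hpz.ne_zero
  have h4 : q.1.IsMaximal := Ring.DimensionLEOne.maximalOfPrime h3 h1
  have h5 : (Ideal.span {(p : ℤ)}).IsMaximal := by
    refine Ring.DimensionLEOne.maximalOfPrime ?_ hpp
    rw [Ne, Ideal.span_singleton_eq_bot]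
    exact hpz.ne_zero
  exact Right.one_le_mul (Ideal.ramificationIdx_pos q.1 ℤ) (Ideal.inertiaDeg_pos q.1 ℤ)

/-- the primes whose norm is not a prime number contribute a bounded amount -/
lemma summable_nonprime : Summable fun v : HeightOneSpectrum (𝓞 K) =>
    if (Ideal.absNorm v.asIdeal).Prime then 0 else (Ideal.absNorm v.asIdeal : ℝ)⁻¹ := by
  set g : HeightOneSpectrum (𝓞 K) → ℝ := fun v =>
    if (Ideal.absNorm v.asIdeal).Prime then 0 else (Ideal.absNorm v.asIdeal : ℝ)⁻¹ with hg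
  have hg0 : ∀ v, 0 ≤ g v := by
    intro v
    rw [hg]
    simp only
    split_ifs
    · exact le_rfl
    · positivity
  have hgle : ∀ v, g v ≤ ((rc v : ℝ) ^ 2)⁻¹ := by
    intro v
    rw [hg]
    simp only
    split_ifs with h
    · positivity
    · refine inv_anti₀ ?_ (by exact_mod_cast sq_rc_le v h)
      have := (rc_prime v).pos
      positivity
  have hfin : ∀ p : ℕ, Finite {v : HeightOneSpectrum (𝓞 K) // rc v = p} ∧
      Nat.card {v : HeightOneSpectrum (𝓞 K) // rc v = p} ≤ Module.finrank ℤ (𝓞 K) := by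
    intro p
    by_cases hp : p.Prime
    · obtain ⟨h1, h2⟩ := ncard_primesOver_le (K := K) hp
      have hm : ∀ v : {v : HeightOneSpectrum (𝓞 K) // rc v = p},
          v.1.asIdeal ∈ (Ideal.span {(p : ℤ)}).primesOver (𝓞 K) := by
        rintro ⟨v, rfl⟩
        exact mem_primesOver_rc v
      have hinj : Function.Injective (fun v : {v : HeightOneSpectrum (𝓞 K) // rc v = p} =>
          (⟨v.1.asIdeal, hm v⟩ : (Ideal.span {(p : ℤ)}).primesOver (𝓞 K))) := by
        intro v w h
        exact Subtype.ext (HeightOneSpectrum.ext (congrArg Subtype.val h))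
      have := h1.to_subtype
      exact ⟨Finite.of_injective _ hinj, (Nat.card_le_card_of_injective _ hinj).trans h2⟩
    · have : IsEmpty {v : HeightOneSpectrum (𝓞 K) // rc v = p} :=
        ⟨fun v => hp (v.2 ▸ rc_prime v.1)⟩
      exact ⟨inferInstance, by rw [Nat.card_of_isEmpty]; exact Nat.zero_le _⟩
  rw [← (Equiv.sigmaFiberEquiv (fun v : HeightOneSpectrum (𝓞 K) => rc v)).summable_iff,
    summable_sigma_of_nonneg (by intro p; exact hg0 _)]
  refine ⟨fun p => ?_, ?_⟩
  · have := (hfin p).1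
    exact Summable.of_finite
  · have hbd : ∀ p : ℕ, ∑' v : {v : HeightOneSpectrum (𝓞 K) // rc v = p},
        (g ∘ (Equiv.sigmaFiberEquiv (fun v : HeightOneSpectrum (𝓞 K) => rc v))) ⟨p, v⟩ ≤
        (Module.finrank ℤ (𝓞 K) : ℝ) * ((p : ℝ) ^ 2)⁻¹ := by
      intro p
      have := (hfin p).1
      letI := Fintype.ofFinite {v : HeightOneSpectrum (𝓞 K) // rc v = p}
      rw [tsum_fintype]
      calc ∑ v : {v : HeightOneSpectrum (𝓞 K) // rc v = p},
            (g ∘ (Equiv.sigmaFiberEquiv (fun v : HeightOneSpectrum (𝓞 K) => rc v))) ⟨p, v⟩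
          ≤ ∑ _v : {v : HeightOneSpectrum (𝓞 K) // rc v = p}, ((p : ℝ) ^ 2)⁻¹ := by
            refine Finset.sum_le_sum fun v _ => ?_
            have h := hgle v.1
            rw [v.2] at h
            exact h
        _ = (Nat.card {v : HeightOneSpectrum (𝓞 K) // rc v = p} : ℝ) * ((p : ℝ) ^ 2)⁻¹ := by
            rw [Finset.sum_const, nsmul_eq_mul, Finset.card_univ, Nat.card_eq_fintype_card]
        _ ≤ _ := by
            refine mul_le_mul_of_nonneg_right ?_ (by positivity)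
            exact_mod_cast (hfin p).2
    refine Summable.of_nonneg_of_le (fun p => tsum_nonneg fun v => hg0 _) hbd ?_
    exact (Real.summable_nat_pow_inv.2 (by norm_num)).mul_left _

end Pool.Agent.helper45.T3
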